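import Mathlib
import Pool.Agent.Lib.MP_f5c34b_co.Balanced

/-!
Full answer to Q1 of MP_f5c34b_co: for every `k ≥ 1` and all large `n`, among the species
trees with `k` leaves the balanced tree has the fewest and the caterpillar the most
duplication-loss histories of size `n`.
-/

namespace Pool.Agent.Results.MP_f5c34b_co.Q1

open Pool.Agent.Lib.MP_f5c34b_co

theorem result : ∀ k : ℕ, 1 ≤ k → ∃ N : ℕ, ∀ n : ℕ, N ≤ n → ∀ S : SpTree, S.size = k →
    h (BT k) n ≤ h S n ∧ h S n ≤ h (CT k) n :=
  fun k _ => q1_main k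

end Pool.Agent.Results.MP_f5c34b_co.Q1
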