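import Mathlib
import Pool.Agent.Lib.MP_f5c34b_co.Growth

/-!
Full answer to Q2 of MP_f5c34b_co: the growth factors of the caterpillars grow
superlinearly in the number of leaves, those of the balanced trees linearly.
-/

namespace Pool.Agent.Results.MP_f5c34b_co.Q2

open Pool.Agent.Lib.MP_f5c34b_co Filter Topology

theorem result :
    (∀ S : SpTree, Tendsto (fun n : ℕ => (h S n) ^ ((1 : ℝ) / n)) atTop (𝓝 (alpha S))) ∧
    Tendsto (fun k : ℕ => alpha (CT k) / k) atTop atTop ∧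
    ∃ c₁ c₂ : ℝ, 0 < c₁ ∧ c₁ ≤ c₂ ∧
      ∀ k : ℕ, 1 ≤ k → c₁ * k ≤ alpha (BT k) ∧ alpha (BT k) ≤ c₂ * k :=
  q2_main

end Pool.Agent.Results.MP_f5c34b_co.Q2
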